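import Mathlib

namespace Pool.Agent.S56
open scoped Pointwise

variable {G P : Type*} [Group G] [MulAction G P] [Fintype P] [DecidableEq P]

theorem steiner_abstract (base : Finset P) (hbase : base.card = 3)
    (T : Finset P → Prop)
    (h6 : ∀ t, T t → t.card = 6)
    (hpair : ∀ S : Finset P, S.card = 5 → base ⊆ S → ∃! t, T t ∧ S ⊆ t)
    (h3 : ∀ U : Finset P, U.card = 3 → ∃ g : G, g • U = base)
    (hcl : ∀ t, T t → ∀ g : G, base ⊆ g • t → T (g • t)) :
    ∃ B : Finset (Finset P), (∀ b ∈ B, b.card = 6) ∧
      ∀ S : Finset P, S.card = 5 → ∃! b, b ∈ B ∧ S ⊆ b := by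
  classical
  refine ⟨Finset.univ.filter (fun b => ∃ g : G, T (g • b)), ?_, ?_⟩
  · intro b hb
    obtain ⟨g, hg⟩ := (Finset.mem_filter.mp hb).2
    have := h6 _ hg
    rwa [Finset.card_smul_finset] at this
  · intro S hS
    obtain ⟨U, hUS, hU⟩ := Finset.exists_subset_card_eq (s := S) (n := 3) (by omega)
    obtain ⟨g, hg⟩ := h3 U hU
    have hbS : base ⊆ g • S := by
      rw [← hg]
      exact Finset.smul_finset_subset_smul_finset_iff.mpr hUS
    obtain ⟨t, ⟨ht, hSt⟩, huniq⟩ := hpair (g • S) (by rw [Finset.card_smul_finset]; exact hS) hbS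
    refine ⟨g⁻¹ • t, ⟨?_, ?_⟩, ?_⟩
    · rw [Finset.mem_filter]
      exact ⟨Finset.mem_univ _, g, by rwa [smul_inv_smul]⟩
    · rw [Finset.subset_smul_finset_iff, inv_inv]
      exact hSt
    · rintro b ⟨hb, hSb⟩
      obtain ⟨g1, hg1⟩ := (Finset.mem_filter.mp hb).2
      have h1 : g • S ⊆ g • b := Finset.smul_finset_subset_smul_finset_iff.mpr hSb
      have h2 : g • b = (g * g1⁻¹) • (g1 • b) := by
        rw [smul_smul, mul_assoc, inv_mul_cancel, mul_one]
      have h3' : T (g • b) := by
        rw [h2]
        apply hcl _ hg1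
        rw [← h2]
        exact hbS.trans h1
      have h4 := huniq _ ⟨h3', h1⟩
      rw [← h4, inv_smul_smul]

/-- closure from the one-step exchange -/
theorem closure_of_step (base : Finset P) (hbase : base.card = 3)
    (T : Finset P → Prop)
    (hstab : ∀ k : G, k • base = base → ∀ t, T t → T (k • t))
    (hstep : ∀ t, T t → ∀ x ∈ t, x ∉ base → ∀ c ∈ base,
      ∃ k : G, T (k • t) ∧ k • (insert x (base.erase c)) = base) :
    ∀ t, T t → ∀ g : G, base ⊆ g • t → T (g • t) := by
  have key : ∀ n : ℕ, ∀ t, T t → ∀ U : Finset P, U ⊆ t → U.card = 3 → (U \ base).card = n →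
      ∃ k : G, k • U = base ∧ T (k • t) := by
    intro n
    induction n with
    | zero =>
      intro t ht U hUt hU hn
      have h1 : U ⊆ base := by
        rw [Finset.card_eq_zero, Finset.sdiff_eq_empty_iff_subset] at hn
        exact hn
      have h2 : U = base := Finset.eq_of_subset_of_card_le h1 (by omega)
      exact ⟨1, by rw [one_smul, h2], by rwa [one_smul]⟩
    | succ n ih =>
      intro t ht U hUt hU hn
      obtain ⟨x, hx⟩ : (U \ base).Nonempty := by
        rw [← Finset.card_pos]; omega
      have hcard : (base \ U).card = (U \ base).card := by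
        have h1 := Finset.card_sdiff_add_card_inter U base
        have h2 := Finset.card_sdiff_add_card_inter base U
        rw [Finset.inter_comm] at h2
        omega
      obtain ⟨c, hc⟩ : (base \ U).Nonempty := by
        rw [← Finset.card_pos]; omega
      rw [Finset.mem_sdiff] at hx hc
      obtain ⟨k1, hk1, hk2⟩ := hstep t ht x (hUt hx.1) hx.2 c hc.1
      have hsd : (k1 • U) \ base = k1 • (U \ (insert x (base.erase c))) := by
        rw [Finset.smul_finset_sdiff, hk2]
      have hsd2 : U \ (insert x (base.erase c)) = (U \ base).erase x := by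
        ext y
        simp only [Finset.mem_sdiff, Finset.mem_insert, Finset.mem_erase]
        constructor
        · rintro ⟨h1, h2⟩
          push Not at h2
          refine ⟨h2.1, h1, fun hy => ?_⟩
          have := h2.2
          by_cases hyc : y = c
          · exact hc.2 (hyc ▸ h1)
          · exact this hyc hy
        · rintro ⟨h1, h2, h3⟩
          refine ⟨h2, ?_⟩
          rintro (h | h)
          · exact h1 h
          · exact h3 h.2
      have hn2 : ((k1 • U) \ base).card = n := by
        rw [hsd, Finset.card_smul_finset, hsd2, Finset.card_erase_of_mem (by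
          rw [Finset.mem_sdiff]; exact hx)]
        omega
      obtain ⟨k2, hk3, hk4⟩ := ih (k1 • t) hk1 (k1 • U)
        (Finset.smul_finset_subset_smul_finset_iff.mpr hUt)
        (by rw [Finset.card_smul_finset]; exact hU) hn2
      exact ⟨k2 * k1, by rw [mul_smul]; exact hk3, by rw [mul_smul]; exact hk4⟩
  intro t ht g hg
  have hU : g⁻¹ • base ⊆ t := by
    rw [Finset.smul_finset_subset_iff, inv_inv]
    exact hg
  obtain ⟨k, hk1, hk2⟩ := key _ t ht (g⁻¹ • base) hU (by rw [Finset.card_smul_finset]; exact hbase) rfl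
  have h1 : g • t = (g * k⁻¹) • (k • t) := by
    rw [smul_smul, mul_assoc, inv_mul_cancel, mul_one]
  rw [h1]
  apply hstab _ _ _ hk2
  rw [mul_smul]
  have h2 : k⁻¹ • base = g⁻¹ • base := by
    rw [inv_smul_eq_iff]; exact hk1.symm
  rw [h2, smul_inv_smul]

end Pool.Agent.S56
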