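import Mathlib
import Pool.Agent.S56.Abs

namespace Pool.Agent.S56
open scoped Pointwise
open OnePoint Matrix

variable {F : Type*} [Field F] [DecidableEq F]

instance decEqOnePoint : DecidableEq (OnePoint F) := inferInstanceAs (DecidableEq (Option F))

/-- the elements of `GL(2,F)` whose determinant is a square -/
def SqDet (F : Type*) [Field F] : Subgroup (GL (Fin 2) F) where
  carrier := {g | IsSquare (g.val.det)}
  mul_mem' := by
    intro a b ha hb
    simp only [Set.mem_ofPred_eq, Units.val_mul, Matrix.det_mul] at *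
    exact ha.mul hb
  one_mem' := by
    simp only [Set.mem_ofPred_eq, Units.val_one, Matrix.det_one]
    exact IsSquare.one
  inv_mem' := by
    intro a ha
    simp only [Set.mem_ofPred_eq] at *
    have h1 : (a⁻¹).val.det * a.val.det = 1 := by
      rw [← Matrix.det_mul, ← Units.val_mul, inv_mul_cancel, Units.val_one, Matrix.det_one]
    have h2 : (a⁻¹).val.det = (a.val.det)⁻¹ := eq_inv_of_mul_eq_one_left h1
    rw [h2]
    exact ha.inv

/-- the fractional linear map with matrix `!![a, b; c, d]` -/
def mk4 (a b c d : F) (h : a * d - b * c ≠ 0) : GL (Fin 2) F :=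
  Matrix.GeneralLinearGroup.mkOfDetNeZero !![a, b; c, d] (by
    rw [Matrix.det_fin_two]; simpa using h)

theorem mk4_det (a b c d : F) (h : a * d - b * c ≠ 0) :
    (mk4 a b c d h).val.det = a * d - b * c := by
  simp [mk4, Matrix.GeneralLinearGroup.mkOfDetNeZero, Matrix.det_fin_two]

theorem mk4_infty (a b c d : F) (h : a * d - b * c ≠ 0) :
    (mk4 a b c d h) • (∞ : OnePoint F) = if c = 0 then ∞ else ((a / c : F) : OnePoint F) := by
  rw [OnePoint.smul_infty_eq_ite]
  simp [mk4, Matrix.GeneralLinearGroup.mkOfDetNeZero]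

theorem mk4_some (a b c d : F) (h : a * d - b * c ≠ 0) (k : F) :
    (mk4 a b c d h) • (k : OnePoint F) =
      if c * k + d = 0 then ∞ else (((a * k + b) / (c * k + d) : F) : OnePoint F) := by
  rw [OnePoint.smul_some_eq_ite]
  simp [mk4, Matrix.GeneralLinearGroup.mkOfDetNeZero]

/-- the base triple -/
def base (F : Type*) [Field F] [DecidableEq F] : Finset (OnePoint F) := {∞, ((0 : F) : OnePoint F), ((1 : F) : OnePoint F)}

theorem base_card : (base F).card = 3 := by
  unfold base
  rw [Finset.card_insert_of_notMem, Finset.card_insert_of_notMem, Finset.card_singleton]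
  · simp
  · simp

/-- three-homogeneity -/
theorem homog3_aux (hneg : ∀ x : F, x ≠ 0 → (IsSquare x ∨ IsSquare (-x))) (a b c : OnePoint F) (hab : a ≠ b) (hac : a ≠ c)
    (hbc : b ≠ c) (hb : b ≠ ∞) (hc : c ≠ ∞) :
    ∃ g : SqDet F, g • ({a, b, c} : Finset (OnePoint F)) = base F := by
  -- first some g in GL
  have hG : ∃ g : GL (Fin 2) F, g • a = ∞ ∧ g • b = ((0 : F) : OnePoint F) ∧
      g • c = ((1 : F) : OnePoint F) := by
    induction b using OnePoint.rec with
    | infty => exact absurd rfl hb
    | coe b =>
    induction c using OnePoint.rec with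
    | infty => exact absurd rfl hc
    | coe c =>
    have hbc' : b ≠ c := fun h => hbc (by rw [h])
    have hcb : c - b ≠ 0 := sub_ne_zero.mpr (Ne.symm hbc')
    induction a using OnePoint.rec with
    | infty =>
      refine ⟨mk4 1 (-b) 0 (c - b) (by simpa using hcb), ?_, ?_, ?_⟩
      · rw [mk4_infty]; simp
      · rw [mk4_some]; simp [hcb]
      · rw [mk4_some]
        rw [if_neg (by simpa using hcb)]
        congr 1
        rw [div_eq_one_iff_eq (by simpa using hcb)]
        ring
    | coe a =>
      have hab' : b - a ≠ 0 := sub_ne_zero.mpr (fun h => hab (by rw [h]))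
      have hac' : c - a ≠ 0 := sub_ne_zero.mpr (fun h => hac (by rw [h]))
      have hdet : (c - a) * (-(a * (c - b))) - (-(b * (c - a))) * (c - b) ≠ 0 := by
        have : (c - a) * (-(a * (c - b))) - (-(b * (c - a))) * (c - b) =
          (c - a) * (c - b) * (b - a) := by ring
        rw [this]
        exact mul_ne_zero (mul_ne_zero hac' hcb) hab'
      refine ⟨mk4 (c - a) (-(b * (c - a))) (c - b) (-(a * (c - b))) hdet, ?_, ?_, ?_⟩
      · rw [mk4_some, if_pos]
        ring
      · rw [mk4_some, if_neg]
        · congr 1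
          rw [div_eq_zero_iff]; left; ring
        · have : (c - b) * b + -(a * (c - b)) = (c - b) * (b - a) := by ring
          rw [this]; exact mul_ne_zero hcb hab'
      · rw [mk4_some, if_neg]
        · congr 1
          rw [div_eq_one_iff_eq]
          · ring
          · have : (c - b) * c + -(a * (c - b)) = (c - b) * (c - a) := by ring
            rw [this]; exact mul_ne_zero hcb hac'
        · have : (c - b) * c + -(a * (c - b)) = (c - b) * (c - a) := by ring
          rw [this]; exact mul_ne_zero hcb hac'
  obtain ⟨g, hga, hgb, hgc⟩ := hG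
  have hdet0 : g.val.det ≠ 0 := by
    exact g.det_ne_zero
  rcases hneg _ hdet0 with h | h
  · refine ⟨⟨g, h⟩, ?_⟩
    have hd : ∀ x : OnePoint F, (⟨g, h⟩ : SqDet F) • x = g • x := fun x => rfl
    simp only [Finset.smul_finset_insert, Finset.smul_finset_singleton, hd, hga, hgb, hgc]
    rfl
  · have hs : (0 : F) * 0 - 1 * 1 ≠ 0 := by simp
    set s := mk4 (0 : F) 1 1 0 hs with hsdef
    have hsg : IsSquare ((s * g).val.det) := by
      rw [Units.val_mul, Matrix.det_mul, hsdef, mk4_det]
      simpa using h
    refine ⟨⟨s * g, hsg⟩, ?_⟩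
    have hd : ∀ x : OnePoint F, (⟨s * g, hsg⟩ : SqDet F) • x = s • (g • x) := fun x => by
      rw [← mul_smul]; rfl
    simp only [Finset.smul_finset_insert, Finset.smul_finset_singleton, hd, hga, hgb, hgc]
    rw [hsdef]
    simp only [mk4_infty, mk4_some]
    unfold base
    ext x
    simp
    tauto

theorem homog3 (hneg : ∀ x : F, x ≠ 0 → (IsSquare x ∨ IsSquare (-x))) (U : Finset (OnePoint F)) (hU : U.card = 3) :
    ∃ g : SqDet F, g • U = base F := by
  obtain ⟨a, b, c, hab, hac, hbc, rfl⟩ := Finset.card_eq_three.mp hU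
  by_cases hb : b = ∞
  · -- swap a and b
    have h1 : ({a, b, c} : Finset (OnePoint F)) = {b, a, c} := by
      ext x; simp; tauto
    rw [h1]
    exact homog3_aux hneg b a c (Ne.symm hab) hbc hac (fun h => hab (h.trans hb.symm)) (fun h => hbc (hb.trans h.symm))
  · by_cases hc : c = ∞
    · have h1 : ({a, b, c} : Finset (OnePoint F)) = {c, a, b} := by
        ext x; simp; tauto
      rw [h1]
      exact homog3_aux hneg c a b (Ne.symm hac) (Ne.symm hbc) hab (fun h => hac (h.trans hc.symm)) hb
    · exact homog3_aux hneg a b c hab hac hbc hb hc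

end Pool.Agent.S56
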