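import Mathlib
import Pool.Agent.S56.Mob

namespace Pool.Agent.S56
open scoped Pointwise
open OnePoint Matrix

variable {F : Type*} [Field F] [DecidableEq F]

/-- the conditions on a table `f` : `{∞,0,1,x,y,f x y}` is the block through `∞,0,1,x,y` -/
structure TabOK (f : F → F → F) : Prop where
  ne : ∀ x y, x ≠ 0 → x ≠ 1 → y ≠ 0 → y ≠ 1 → x ≠ y →
    f x y ≠ 0 ∧ f x y ≠ 1 ∧ f x y ≠ x ∧ f x y ≠ y
  symm : ∀ x y, x ≠ 0 → x ≠ 1 → y ≠ 0 → y ≠ 1 → x ≠ y → f y x = f x y
  inv : ∀ x y, x ≠ 0 → x ≠ 1 → y ≠ 0 → y ≠ 1 → x ≠ y → f x (f x y) = y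
  rho : ∀ x y, x ≠ 0 → x ≠ 1 → y ≠ 0 → y ≠ 1 → x ≠ y → f (1 - x)⁻¹ (1 - y)⁻¹ = (1 - f x y)⁻¹
  sq : ∀ x y, x ≠ 0 → x ≠ 1 → y ≠ 0 → y ≠ 1 → x ≠ y → IsSquare x → f x⁻¹ (y * x⁻¹) = f x y * x⁻¹
  nsq : ∀ x y, x ≠ 0 → x ≠ 1 → y ≠ 0 → y ≠ 1 → x ≠ y → ¬ IsSquare x → f x (x * y⁻¹) = x * (f x y)⁻¹

/-- the blocks containing the base -/
def TT (f : F → F → F) (t : Finset (OnePoint F)) : Prop :=
  ∃ x y : F, x ≠ 0 ∧ x ≠ 1 ∧ y ≠ 0 ∧ y ≠ 1 ∧ x ≠ y ∧
    t = {(x : OnePoint F), (y : OnePoint F), (f x y : OnePoint F), ∞, ((0 : F) : OnePoint F),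
      ((1 : F) : OnePoint F)}

variable {f : F → F → F}

section rearr
variable {P : Type*} [DecidableEq P]
theorem rearr1 (a b c i z o : P) : ({a, b, c, z, o, i} : Finset P) = {a, b, c, i, z, o} := by
  ext q; simp only [Finset.mem_insert, Finset.mem_singleton]; tauto
theorem rearr2 (a b c i z o : P) : ({o, b, c, i, z, a} : Finset P) = {a, b, c, i, z, o} := by
  ext q; simp only [Finset.mem_insert, Finset.mem_singleton]; tauto
theorem rearr3 (a b c i z o : P) : ({o, b, c, z, i, a} : Finset P) = {a, b, c, i, z, o} := by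
  ext q; simp only [Finset.mem_insert, Finset.mem_singleton]; tauto
theorem rearr4 (i z o : P) : ({o, i, z} : Finset P) = {i, z, o} := by
  ext q; simp only [Finset.mem_insert, Finset.mem_singleton]; tauto
theorem rearr5 (i z o : P) : ({o, z, i} : Finset P) = {i, z, o} := by
  ext q; simp only [Finset.mem_insert, Finset.mem_singleton]; tauto
theorem rearr6 (a b c i z o : P) : ({a, b, c, i, z, o} : Finset P) = {a, c, b, i, z, o} := by
  ext q; simp only [Finset.mem_insert, Finset.mem_singleton]; tauto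
theorem rearr7 (a b c i z o : P) : ({a, b, c, i, z, o} : Finset P) = {b, a, c, i, z, o} := by
  ext q; simp only [Finset.mem_insert, Finset.mem_singleton]; tauto
theorem rearr8 (a b c i z o : P) : ({a, b, c, i, z, o} : Finset P) = {b, c, a, i, z, o} := by
  ext q; simp only [Finset.mem_insert, Finset.mem_singleton]; tauto
theorem rearr9 (a b c i z o : P) : ({a, b, c, i, z, o} : Finset P) = {c, a, b, i, z, o} := by
  ext q; simp only [Finset.mem_insert, Finset.mem_singleton]; tauto
theorem rearr10 (a b c i z o : P) : ({a, b, c, i, z, o} : Finset P) = {c, b, a, i, z, o} := by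
  ext q; simp only [Finset.mem_insert, Finset.mem_singleton]; tauto
theorem rearr11 (i z o : P) : ({z, o, i} : Finset P) = {i, z, o} := by
  ext q; simp only [Finset.mem_insert, Finset.mem_singleton]; tauto
end rearr

theorem TT_card (hf : TabOK f) (t : Finset (OnePoint F)) (ht : TT f t) : t.card = 6 := by
  obtain ⟨x, y, hx0, hx1, hy0, hy1, hxy, rfl⟩ := ht
  obtain ⟨h1, h2, h3, h4⟩ := hf.ne x y hx0 hx1 hy0 hy1 hxy
  rw [Finset.card_insert_of_notMem, Finset.card_insert_of_notMem, Finset.card_insert_of_notMem,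
    Finset.card_insert_of_notMem, Finset.card_insert_of_notMem, Finset.card_singleton]
  · simp
  · simp
  · simp [h1, h2]
  · simp [hy0, hy1, Ne.symm h4]
  · simp [hx0, hx1, hxy, Ne.symm h3]

theorem mem_base (p : OnePoint F) : p ∈ base F ↔ p = ∞ ∨ p = ((0 : F) : OnePoint F) ∨ p = ((1 : F) : OnePoint F) := by
  unfold base; simp

theorem TT_mem_iff (x y : F) (p : OnePoint F) :
    p ∈ ({(x : OnePoint F), (y : OnePoint F), (f x y : OnePoint F), ∞, ((0 : F) : OnePoint F),
      ((1 : F) : OnePoint F)} : Finset (OnePoint F)) ↔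
      p = (x : OnePoint F) ∨ p = (y : OnePoint F) ∨ p = (f x y : OnePoint F) ∨ p ∈ base F := by
  rw [mem_base]; simp

/-- re-presentation of a block starting from any two of its non-base points -/
theorem TT_repr (hf : TabOK f) (x y : F) (hx0 : x ≠ 0) (hx1 : x ≠ 1) (hy0 : y ≠ 0) (hy1 : y ≠ 1)
    (hxy : x ≠ y) (u v : F) (huv : u ≠ v) (hu : u = x ∨ u = y ∨ u = f x y)
    (hv : v = x ∨ v = y ∨ v = f x y) :
    u ≠ 0 ∧ u ≠ 1 ∧ v ≠ 0 ∧ v ≠ 1 ∧
    ({(x : OnePoint F), (y : OnePoint F), (f x y : OnePoint F), ∞, ((0 : F) : OnePoint F),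
      ((1 : F) : OnePoint F)} : Finset (OnePoint F)) = 
    {(u : OnePoint F), (v : OnePoint F), (f u v : OnePoint F), ∞, ((0 : F) : OnePoint F),
      ((1 : F) : OnePoint F)} := by
  obtain ⟨h1, h2, h3, h4⟩ := hf.ne x y hx0 hx1 hy0 hy1 hxy
  have e1 := hf.symm x y hx0 hx1 hy0 hy1 hxy
  have e2 := hf.inv x y hx0 hx1 hy0 hy1 hxy
  have e3 : f y (f x y) = x := by
    rw [← e1]; exact hf.inv y x hy0 hy1 hx0 hx1 (Ne.symm hxy)
  have e4 : f (f x y) x = y := by
    rw [hf.symm x (f x y) hx0 hx1 h1 h2 (Ne.symm h3)]; exact e2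
  have e5 : f (f x y) y = x := by
    rw [hf.symm y (f x y) hy0 hy1 h1 h2 (Ne.symm h4)]; exact e3
  rcases hu with rfl | rfl | rfl <;> rcases hv with rfl | rfl | rfl
  · exact absurd rfl huv
  · exact ⟨hx0, hx1, hy0, hy1, rfl⟩
  · refine ⟨hx0, hx1, h1, h2, ?_⟩
    rw [e2]
    exact rearr6 _ _ _ _ _ _
  · refine ⟨hy0, hy1, hx0, hx1, ?_⟩
    rw [e1]
    exact rearr7 _ _ _ _ _ _
  · exact absurd rfl huv
  · refine ⟨hy0, hy1, h1, h2, ?_⟩
    rw [e3]
    exact rearr8 _ _ _ _ _ _
  · refine ⟨h1, h2, hx0, hx1, ?_⟩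
    rw [e4]
    exact rearr9 _ _ _ _ _ _
  · refine ⟨h1, h2, hy0, hy1, ?_⟩
    rw [e5]
    exact rearr10 _ _ _ _ _ _
  · exact absurd rfl huv

theorem TT_pair (hf : TabOK f) (S : Finset (OnePoint F)) (hS : S.card = 5) (hb : base F ⊆ S) :
    ∃! t, TT f t ∧ S ⊆ t := by
  have h2 : (S \ base F).card = 2 := by
    rw [Finset.card_sdiff_of_subset hb, hS, base_card]
  obtain ⟨p, r, hpr, hS2⟩ := Finset.card_eq_two.mp h2
  have hp : p ∈ S \ base F := by rw [hS2]; simp
  have hr : r ∈ S \ base F := by rw [hS2]; simp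
  rw [Finset.mem_sdiff, mem_base] at hp hr
  obtain ⟨hpS, hp⟩ := hp
  obtain ⟨hrS, hr⟩ := hr
  push Not at hp hr
  obtain ⟨hp1, hp2, hp3⟩ := hp
  obtain ⟨hr1, hr2, hr3⟩ := hr
  obtain ⟨x, rfl⟩ := OnePoint.ne_infty_iff_exists.mp hp1
  obtain ⟨y, rfl⟩ := OnePoint.ne_infty_iff_exists.mp hr1
  have hx0 : x ≠ 0 := fun h => hp2 (by rw [h])
  have hx1 : x ≠ 1 := fun h => hp3 (by rw [h])
  have hy0 : y ≠ 0 := fun h => hr2 (by rw [h])
  have hy1 : y ≠ 1 := fun h => hr3 (by rw [h])
  have hxy : x ≠ y := fun h => hpr (by rw [h])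
  refine ⟨{(x : OnePoint F), (y : OnePoint F), (f x y : OnePoint F), ∞, ((0 : F) : OnePoint F),
      ((1 : F) : OnePoint F)}, ⟨⟨x, y, hx0, hx1, hy0, hy1, hxy, rfl⟩, ?_⟩, ?_⟩
  · intro p hp
    rw [TT_mem_iff]
    by_cases hpb : p ∈ base F
    · tauto
    · have : p ∈ S \ base F := Finset.mem_sdiff.mpr ⟨hp, hpb⟩
      rw [hS2] at this
      simp only [Finset.mem_insert, Finset.mem_singleton] at this
      tauto
  · rintro t ⟨⟨u, v, hu0, hu1, hv0, hv1, huv, rfl⟩, hSt⟩
    have hx := hSt hpS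
    have hy := hSt hrS
    rw [TT_mem_iff, mem_base] at hx hy
    have hx' : x = u ∨ x = v ∨ x = f u v := by
      rcases hx with h | h | h | h | h | h
      · left; exact OnePoint.coe_injective h
      · right; left; exact OnePoint.coe_injective h
      · right; right; exact OnePoint.coe_injective h
      · exact absurd h hp1
      · exact absurd h hp2
      · exact absurd h hp3
    have hy' : y = u ∨ y = v ∨ y = f u v := by
      rcases hy with h | h | h | h | h | h
      · left; exact OnePoint.coe_injective h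
      · right; left; exact OnePoint.coe_injective h
      · right; right; exact OnePoint.coe_injective h
      · exact absurd h hr1
      · exact absurd h hr2
      · exact absurd h hr3
    exact (TT_repr hf u v hu0 hu1 hv0 hv1 huv x y hxy hx' hy').2.2.2.2

/-- the rotation `w ↦ 1/(1-w)` -/
def rhoG (F : Type*) [Field F] [DecidableEq F] : SqDet F :=
  ⟨mk4 0 1 (-1) 1 (by simp), by
    show IsSquare _
    rw [mk4_det]; simp⟩

theorem rho_infty : rhoG F • (∞ : OnePoint F) = ((0 : F) : OnePoint F) := by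
  show (mk4 (0 : F) 1 (-1) 1 (by simp)) • (∞ : OnePoint F) = _
  rw [mk4_infty]; simp

theorem rho_one : rhoG F • ((1 : F) : OnePoint F) = ∞ := by
  show (mk4 (0 : F) 1 (-1) 1 (by simp)) • ((1 : F) : OnePoint F) = _
  rw [mk4_some]; simp

theorem rho_some (w : F) (hw : w ≠ 1) : rhoG F • (w : OnePoint F) = (((1 - w)⁻¹ : F) : OnePoint F) := by
  show (mk4 (0 : F) 1 (-1) 1 (by simp)) • (w : OnePoint F) = _
  rw [mk4_some, if_neg]
  · congr 1
    rw [zero_mul, zero_add, one_div]
    congr 1; ring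
  · intro h
    apply hw
    linear_combination -h

theorem rho_zero : rhoG F • ((0 : F) : OnePoint F) = ((1 : F) : OnePoint F) := by
  rw [rho_some 0 (by simp)]; simp

theorem rho_rho_rho (p : OnePoint F) : rhoG F • rhoG F • rhoG F • p = p := by
  induction p using OnePoint.rec with
  | infty => rw [rho_infty, rho_zero, rho_one]
  | coe w =>
    by_cases h1 : w = 1
    · rw [h1, rho_one, rho_infty, rho_zero]
    · by_cases h0 : w = 0
      · rw [h0, rho_zero, rho_one, rho_infty]
      · rw [rho_some w h1, rho_some, rho_some]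
        · congr 1
          have h1' : 1 - w ≠ 0 := sub_ne_zero.mpr (Ne.symm h1)
          have h2 : 1 - (1 - w)⁻¹ = -w / (1 - w) := by field_simp; ring
          rw [h2]
          have h3 : 1 - (-w / (1 - w))⁻¹ = w⁻¹ := by field_simp; ring
          rw [h3, inv_inv]
        · intro h
          have h1' : 1 - w ≠ 0 := sub_ne_zero.mpr (Ne.symm h1)
          rw [inv_eq_one] at h
          have : (1 - w)⁻¹ = 0 := by linear_combination -h
          exact absurd this (inv_ne_zero h1')
        · intro h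
          rw [inv_eq_one] at h
          apply h0
          linear_combination -h

theorem rho_base : rhoG F • base F = base F := by
  unfold base
  rw [Finset.smul_finset_insert, Finset.smul_finset_insert, Finset.smul_finset_singleton,
    rho_infty, rho_zero, rho_one]
  exact rearr11 _ _ _

theorem rho_TT (hf : TabOK f) (t : Finset (OnePoint F)) (ht : TT f t) : TT f (rhoG F • t) := by
  obtain ⟨x, y, hx0, hx1, hy0, hy1, hxy, rfl⟩ := ht
  obtain ⟨h1, h2, h3, h4⟩ := hf.ne x y hx0 hx1 hy0 hy1 hxy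
  have hx1' : 1 - x ≠ 0 := sub_ne_zero.mpr (Ne.symm hx1)
  have hy1' : 1 - y ≠ 0 := sub_ne_zero.mpr (Ne.symm hy1)
  refine ⟨(1 - x)⁻¹, (1 - y)⁻¹, inv_ne_zero hx1', ?_, inv_ne_zero hy1', ?_, ?_, ?_⟩
  · intro h
    rw [inv_eq_one] at h
    apply hx0; linear_combination -h
  · intro h
    rw [inv_eq_one] at h
    apply hy0; linear_combination -h
  · intro h
    apply hxy
    have := inv_injective h
    linear_combination -this
  · simp only [Finset.smul_finset_insert, Finset.smul_finset_singleton]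
    rw [rho_some x hx1, rho_some y hy1, rho_some _ h2, rho_infty, rho_zero, rho_one,
      hf.rho x y hx0 hx1 hy0 hy1 hxy]
    exact rearr1 _ _ _ _ _ _

theorem rho_inv_smul (t : Finset (OnePoint F)) : (rhoG F)⁻¹ • t = rhoG F • rhoG F • t := by
  rw [inv_smul_eq_iff]
  ext p
  constructor
  · intro hp
    rw [← rho_rho_rho p]
    rw [Finset.smul_mem_smul_finset_iff, Finset.smul_mem_smul_finset_iff, Finset.smul_mem_smul_finset_iff]
    exact hp
  · intro hp
    rw [← rho_rho_rho p] at hp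
    rw [Finset.smul_mem_smul_finset_iff, Finset.smul_mem_smul_finset_iff, Finset.smul_mem_smul_finset_iff] at hp
    exact hp

theorem rho_inv_TT (hf : TabOK f) (t : Finset (OnePoint F)) (ht : TT f t) : TT f ((rhoG F)⁻¹ • t) := by
  rw [rho_inv_smul]
  exact rho_TT hf _ (rho_TT hf _ ht)

theorem rho_inv_base : (rhoG F)⁻¹ • base F = base F := by
  rw [rho_inv_smul, rho_base, rho_base]

/-- an element of the group fixing `∞` and the base acts trivially -/
theorem fix_trivial (hneg1 : ¬ IsSquare (-1 : F)) (k : SqDet F) (hk : k • base F = base F)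
    (hk1 : k • (∞ : OnePoint F) = ∞) (p : OnePoint F) : k • p = p := by
  have hdet : IsSquare (k.val.val.det) := k.2
  have hd0 : k.val.val.det ≠ 0 := k.val.det_ne_zero
  have e1 : ∀ q : OnePoint F, k • q = k.val • q := fun q => rfl
  rw [Matrix.det_fin_two] at hdet hd0
  have hc : k.val 1 0 = 0 := OnePoint.smul_infty_eq_self_iff.mp hk1
  have hc' : k.val.val 1 0 = 0 := hc
  rw [hc', mul_zero, sub_zero] at hdet hd0
  have ha : k.val.val 0 0 ≠ 0 := left_ne_zero_of_mul hd0
  have hd : k.val.val 1 1 ≠ 0 := right_ne_zero_of_mul hd0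
  have hact : ∀ w : F, k • (w : OnePoint F) =
      (((k.val.val 0 0 * w + k.val.val 0 1) / k.val.val 1 1 : F) : OnePoint F) := by
    intro w
    rw [e1, OnePoint.smul_some_eq_ite]
    rw [hc, zero_mul, zero_add, if_neg hd]
  have h0 : k • ((0 : F) : OnePoint F) ∈ base F := by
    rw [← hk, Finset.smul_mem_smul_finset_iff, mem_base]; tauto
  have h1 : k • ((1 : F) : OnePoint F) ∈ base F := by
    rw [← hk, Finset.smul_mem_smul_finset_iff, mem_base]; tauto
  rw [hact, mem_base] at h0 h1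
  rw [mul_zero, zero_add] at h0
  rw [mul_one] at h1
  have h0' : k.val.val 0 1 = 0 ∨ k.val.val 0 1 = k.val.val 1 1 := by
    rcases h0 with h | h | h
    · exact absurd h (OnePoint.coe_ne_infty _)
    · left
      have := OnePoint.coe_injective h
      rwa [div_eq_zero_iff, or_iff_left hd] at this
    · right
      have := OnePoint.coe_injective h
      rwa [div_eq_one_iff_eq hd] at this
  have h1' : k.val.val 0 0 + k.val.val 0 1 = 0 ∨ k.val.val 0 0 + k.val.val 0 1 = k.val.val 1 1 := by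
    rcases h1 with h | h | h
    · exact absurd h (OnePoint.coe_ne_infty _)
    · left
      have := OnePoint.coe_injective h
      rwa [div_eq_zero_iff, or_iff_left hd] at this
    · right
      have := OnePoint.coe_injective h
      rwa [div_eq_one_iff_eq hd] at this
  rcases h0' with h | h
  · rcases h1' with h' | h'
    · rw [h, add_zero] at h'; exact absurd h' ha
    · rw [h, add_zero] at h'
      induction p using OnePoint.rec with
      | infty => exact hk1
      | coe w =>
        rw [hact, h, h', add_zero]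
        congr 1
        field_simp
  · rcases h1' with h' | h'
    · exfalso
      apply hneg1
      have h2 : k.val.val 0 0 = - k.val.val 1 1 := by rw [← h]; linear_combination h'
      rw [h2] at hdet
      obtain ⟨r, hr⟩ := hdet
      refine ⟨r / k.val.val 1 1, ?_⟩
      field_simp
      linear_combination hr
    · exfalso
      apply ha
      rw [h] at h'
      linear_combination h'

theorem stab_TT (hneg1 : ¬ IsSquare (-1 : F)) (hf : TabOK f) (k : SqDet F)
    (hk : k • base F = base F) (t : Finset (OnePoint F)) (ht : TT f t) : TT f (k • t) := by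
  have triv : ∀ k' : SqDet F, k' • base F = base F → k' • (∞ : OnePoint F) = ∞ → k' • t = t := by
    intro k' h1 h2
    ext p
    constructor
    · intro hp
      rw [← fix_trivial hneg1 k' h1 h2 p, Finset.smul_mem_smul_finset_iff] at hp
      exact hp
    · intro hp
      rw [← fix_trivial hneg1 k' h1 h2 p, Finset.smul_mem_smul_finset_iff]
      exact hp
  have hki : k • (∞ : OnePoint F) ∈ base F := by
    rw [← hk, Finset.smul_mem_smul_finset_iff, mem_base]; tauto
  rw [mem_base] at hki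
  rcases hki with h | h | h
  · rw [triv k hk h]; exact ht
  · have h1 := triv (rhoG F * rhoG F * k) (by rw [mul_smul, mul_smul, hk, rho_base, rho_base])
      (by rw [mul_smul, mul_smul, h, rho_zero, rho_one])
    have h2 : k • t = (rhoG F)⁻¹ • (rhoG F)⁻¹ • t := by
      conv_rhs => rw [← h1]
      rw [mul_smul, mul_smul, inv_smul_smul, inv_smul_smul]
    rw [h2]
    exact rho_inv_TT hf _ (rho_inv_TT hf _ ht)
  · have h1 := triv (rhoG F * k) (by rw [mul_smul, hk, rho_base])
      (by rw [mul_smul, h, rho_one])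
    have h2 : k • t = (rhoG F)⁻¹ • t := by
      conv_rhs => rw [← h1]
      rw [mul_smul, inv_smul_smul]
    rw [h2]
    exact rho_inv_TT hf _ ht

theorem step_one (hneg : ∀ x : F, x ≠ 0 → (IsSquare x ∨ IsSquare (-x))) (hf : TabOK f)
    (t : Finset (OnePoint F)) (ht : TT f t) (p : OnePoint F) (hpt : p ∈ t) (hpb : p ∉ base F) :
    ∃ k : SqDet F, TT f (k • t) ∧
      k • (insert p ((base F).erase ((1 : F) : OnePoint F))) = base F := by
  obtain ⟨a, b, ha0, ha1, hb0, hb1, hab, rfl⟩ := ht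
  obtain ⟨g1, g2, g3, g4⟩ := hf.ne a b ha0 ha1 hb0 hb1 hab
  rw [TT_mem_iff] at hpt
  -- present the block starting from p
  obtain ⟨x, y, hpx, hxy, hx', hy'⟩ : ∃ x y : F, p = (x : OnePoint F) ∧ x ≠ y ∧
      (x = a ∨ x = b ∨ x = f a b) ∧ (y = a ∨ y = b ∨ y = f a b) := by
    rcases hpt with h | h | h | h
    · exact ⟨a, b, h, hab, Or.inl rfl, Or.inr (Or.inl rfl)⟩
    · exact ⟨b, a, h, Ne.symm hab, Or.inr (Or.inl rfl), Or.inl rfl⟩
    · exact ⟨f a b, a, h, g3, Or.inr (Or.inr rfl), Or.inl rfl⟩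
    · exact absurd h hpb
  obtain ⟨hx0, hx1, hy0, hy1, he⟩ := TT_repr hf a b ha0 ha1 hb0 hb1 hab x y hxy hx' hy'
  rw [he, hpx]
  obtain ⟨h1, h2, h3, h4⟩ := hf.ne x y hx0 hx1 hy0 hy1 hxy
  have hbe : (base F).erase ((1 : F) : OnePoint F) = {∞, ((0 : F) : OnePoint F)} := by
    ext q
    rw [Finset.mem_erase, mem_base]
    simp only [Finset.mem_insert, Finset.mem_singleton]
    constructor
    · rintro ⟨h, h'⟩; tauto
    · rintro (h | h)
      · subst h; exact ⟨(OnePoint.infty_ne_coe _), Or.inl rfl⟩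
      · subst h
        refine ⟨fun h => ?_, Or.inr (Or.inl rfl)⟩
        exact zero_ne_one (OnePoint.coe_injective h)
  rw [hbe]
  by_cases hsq : IsSquare x
  · have hdet : x⁻¹ * 1 - 0 * 0 ≠ 0 := by simpa using hx0
    let g : SqDet F := ⟨mk4 x⁻¹ 0 0 1 hdet, by
      show IsSquare _
      rw [mk4_det]; simpa using hsq⟩
    have gi : g • (∞ : OnePoint F) = ∞ := by
      show (mk4 x⁻¹ 0 0 1 hdet) • (∞ : OnePoint F) = _
      rw [mk4_infty]; simp
    have gs : ∀ w : F, g • (w : OnePoint F) = ((w * x⁻¹ : F) : OnePoint F) := by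
      intro w
      show (mk4 x⁻¹ 0 0 1 hdet) • (w : OnePoint F) = _
      rw [mk4_some]; simp [mul_comm]
    refine ⟨g, ?_, ?_⟩
    · refine ⟨x⁻¹, y * x⁻¹, inv_ne_zero hx0, ?_, mul_ne_zero hy0 (inv_ne_zero hx0), ?_, ?_, ?_⟩
      · intro h; rw [inv_eq_one] at h; exact hx1 h
      · intro h
        apply hxy
        field_simp at h
        exact h.symm
      · intro h
        apply hy1
        field_simp at h
        exact h.symm
      · simp only [Finset.smul_finset_insert, Finset.smul_finset_singleton, gi, gs,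
          hf.sq x y hx0 hx1 hy0 hy1 hxy hsq, zero_mul, one_mul, mul_inv_cancel₀ hx0]
        exact rearr2 _ _ _ _ _ _
    · simp only [Finset.smul_finset_insert, Finset.smul_finset_singleton, gi, gs, zero_mul,
        mul_inv_cancel₀ hx0]
      exact rearr4 _ _ _
  · have hnx : IsSquare (-x) := (hneg x hx0).resolve_left hsq
    have hdet : (0 : F) * 0 - x * 1 ≠ 0 := by simpa using hx0
    let g : SqDet F := ⟨mk4 0 x 1 0 hdet, by
      show IsSquare _
      rw [mk4_det]; simpa using hnx⟩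
    have gi : g • (∞ : OnePoint F) = ((0 : F) : OnePoint F) := by
      show (mk4 0 x 1 0 hdet) • (∞ : OnePoint F) = _
      rw [mk4_infty]; simp
    have g0 : g • ((0 : F) : OnePoint F) = ∞ := by
      show (mk4 0 x 1 0 hdet) • ((0 : F) : OnePoint F) = _
      rw [mk4_some]; simp
    have gs : ∀ w : F, w ≠ 0 → g • (w : OnePoint F) = ((x * w⁻¹ : F) : OnePoint F) := by
      intro w hw
      show (mk4 0 x 1 0 hdet) • (w : OnePoint F) = _
      rw [mk4_some, if_neg (by simpa using hw)]
      congr 1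
      simp [div_eq_mul_inv]
    refine ⟨g, ?_, ?_⟩
    · refine ⟨x, x * y⁻¹, hx0, hx1, mul_ne_zero hx0 (inv_ne_zero hy0), ?_, ?_, ?_⟩
      · intro h
        apply hxy
        field_simp at h
        exact h
      · intro h
        apply hy1
        field_simp at h
        exact h
      · simp only [Finset.smul_finset_insert, Finset.smul_finset_singleton, gi, g0, gs x hx0, gs y hy0,
          gs _ h1, gs 1 one_ne_zero,
          hf.nsq x y hx0 hx1 hy0 hy1 hxy hsq, mul_inv_cancel₀ hx0, inv_one, mul_one]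
        exact rearr3 _ _ _ _ _ _
    · simp only [Finset.smul_finset_insert, Finset.smul_finset_singleton, gi, g0, gs x hx0,
        mul_inv_cancel₀ hx0]
      exact rearr5 _ _ _

theorem step_TT (hneg : ∀ x : F, x ≠ 0 → (IsSquare x ∨ IsSquare (-x))) (hf : TabOK f)
    (t : Finset (OnePoint F)) (ht : TT f t) (p : OnePoint F) (hpt : p ∈ t) (hpb : p ∉ base F)
    (c : OnePoint F) (hc : c ∈ base F) :
    ∃ k : SqDet F, TT f (k • t) ∧ k • (insert p ((base F).erase c)) = base F := by
  obtain ⟨r, hr1, hr2, hr3⟩ : ∃ r : SqDet F, r • base F = base F ∧ r • c = ((1 : F) : OnePoint F) ∧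
      TT f (r • t) := by
    rw [mem_base] at hc
    rcases hc with rfl | rfl | rfl
    · exact ⟨(rhoG F)⁻¹, rho_inv_base, by rw [inv_smul_eq_iff, rho_one], rho_inv_TT hf t ht⟩
    · exact ⟨rhoG F, rho_base, rho_zero, rho_TT hf t ht⟩
    · exact ⟨1, one_smul _ _, one_smul _ _, by rwa [one_smul]⟩
  obtain ⟨k, hk1, hk2⟩ := step_one hneg hf (r • t) hr3 (r • p)
    ((Finset.smul_mem_smul_finset_iff r).mpr hpt)
    (fun h => hpb (by rw [← hr1, Finset.smul_mem_smul_finset_iff] at h; exact h))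
  have key : r • (insert p ((base F).erase c)) = insert (r • p) ((base F).erase ((1 : F) : OnePoint F)) := by
    rw [Finset.smul_finset_insert]
    congr 1
    ext q
    rw [Finset.mem_smul_finset, Finset.mem_erase]
    constructor
    · rintro ⟨s, hs, rfl⟩
      rw [Finset.mem_erase] at hs
      refine ⟨fun h => hs.1 ?_, ?_⟩
      · rw [← hr2] at h
        exact smul_left_cancel r h
      · rw [← hr1, Finset.smul_mem_smul_finset_iff]
        exact hs.2
    · rintro ⟨h1, h2⟩
      rw [← hr1, Finset.mem_smul_finset] at h2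
      obtain ⟨s, hs, rfl⟩ := h2
      exact ⟨s, Finset.mem_erase.mpr ⟨fun h => h1 (by rw [h, hr2]), hs⟩, rfl⟩
  exact ⟨k * r, by rw [mul_smul]; exact hk1, by rw [mul_smul, key]; exact hk2⟩

/-- the main construction -/
theorem steiner_of_tab [Fintype F] (hneg1 : ¬ IsSquare (-1 : F))
    (hneg : ∀ x : F, x ≠ 0 → (IsSquare x ∨ IsSquare (-x))) (hf : TabOK f) :
    ∃ B : Finset (Finset (OnePoint F)), (∀ b ∈ B, b.card = 6) ∧
      ∀ S : Finset (OnePoint F), S.card = 5 → ∃! b, b ∈ B ∧ S ⊆ b := by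
  refine steiner_abstract (G := SqDet F) (base F) base_card (TT f) (TT_card hf) (TT_pair hf)
    (homog3 hneg) ?_
  exact closure_of_step (base F) base_card (TT f) (fun k hk t ht => stab_TT hneg1 hf k hk t ht)
    (fun t ht x hx hxb c hc => step_TT hneg hf t ht x hx hxb c hc)

end Pool.Agent.S56
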