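import Mathlib
import Pool.Agent.S56.Tab

namespace Pool.Agent.S56

/-- the numerical conditions at one pair -/
def CK (q : ℕ) (g : ℕ → ℕ → ℕ) (x y : ℕ) : Prop :=
  g x y < q ∧ 2 ≤ g x y ∧ g x y ≠ x ∧ g x y ≠ y ∧ g y x = g x y ∧ g x (g x y) = y ∧
  g ((q + 1 - x) ^ (q - 2) % q) ((q + 1 - y) ^ (q - 2) % q) = (q + 1 - g x y) ^ (q - 2) % q ∧
  (x ^ (q / 2) % q = 1 → g (x ^ (q - 2) % q) (y * (x ^ (q - 2) % q) % q) =
    (g x y * (x ^ (q - 2) % q)) % q) ∧
  (x ^ (q / 2) % q ≠ 1 → g x (x * (y ^ (q - 2) % q) % q) = (x * (g x y ^ (q - 2) % q)) % q)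

section
variable {q : ℕ} [Fact q.Prime]

theorem pow_eq_inv (c : ZMod q) (hc : c ≠ 0) (hq2 : 2 < q) : c ^ (q - 2) = c⁻¹ := by
  have h := ZMod.pow_card_sub_one_eq_one hc
  have h2 : q - 1 = (q - 2) + 1 := by omega
  rw [h2, pow_succ] at h
  exact eq_inv_of_mul_eq_one_left h

theorem val_ge_two (a : ZMod q) (h0 : a ≠ 0) (h1 : a ≠ 1) (hq2 : 2 < q) : 2 ≤ a.val := by
  by_contra h
  push Not at h
  interval_cases hv : a.val
  · exact h0 ((ZMod.val_eq_zero a).mp hv)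
  · apply h1
    haveI : Fact (1 < q) := ⟨by omega⟩
    apply ZMod.val_injective
    rw [hv, ZMod.val_one]

theorem val_rho (a : ZMod q) (h1 : a ≠ 1) (hq2 : 2 < q) :
    ((1 - a)⁻¹).val = (q + 1 - a.val) ^ (q - 2) % q := by
  have hlt := ZMod.val_lt a
  have h : (((q + 1 - a.val) ^ (q - 2) % q : ℕ) : ZMod q) = (1 - a)⁻¹ := by
    rw [ZMod.natCast_mod, Nat.cast_pow, Nat.cast_sub (by omega)]
    push_cast
    rw [ZMod.natCast_self, ZMod.natCast_val, ZMod.cast_id', id_eq, zero_add]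
    exact pow_eq_inv _ (sub_ne_zero.mpr (Ne.symm h1)) hq2
  rw [← h, ZMod.val_natCast, Nat.mod_mod]

theorem val_inv' (a : ZMod q) (h0 : a ≠ 0) (hq2 : 2 < q) :
    (a⁻¹).val = a.val ^ (q - 2) % q := by
  have h : ((a.val ^ (q - 2) % q : ℕ) : ZMod q) = a⁻¹ := by
    rw [ZMod.natCast_mod, Nat.cast_pow, ZMod.natCast_val, ZMod.cast_id', id_eq]
    exact pow_eq_inv _ h0 hq2
  rw [← h, ZMod.val_natCast, Nat.mod_mod]

theorem isSquare_iff_nat (a : ZMod q) (h0 : a ≠ 0) (hq2 : 2 < q) : IsSquare a ↔ a.val ^ (q / 2) % q = 1 := by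
  rw [ZMod.euler_criterion q h0]
  haveI : Fact (1 < q) := ⟨by omega⟩
  have h : ((a.val ^ (q / 2) % q : ℕ) : ZMod q) = a ^ (q / 2) := by
    rw [ZMod.natCast_mod, Nat.cast_pow, ZMod.natCast_val, ZMod.cast_id', id_eq]
  constructor
  · intro h1
    rw [h1] at h
    have := congrArg ZMod.val h
    rwa [ZMod.val_natCast, Nat.mod_mod, ZMod.val_one] at this
  · intro h1
    rw [← h, h1, Nat.cast_one]

theorem tabOK_of_check (hq2 : 2 < q) (g : ℕ → ℕ → ℕ)
    (hck : ∀ x y, 2 ≤ x → x < q → 2 ≤ y → y < q → x ≠ y → CK q g x y) :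
    TabOK (F := ZMod q) (fun a b => ((g a.val b.val : ℕ) : ZMod q)) := by
  haveI : Fact (1 < q) := ⟨by omega⟩
  have hc : ∀ a b : ZMod q, a ≠ 0 → a ≠ 1 → b ≠ 0 → b ≠ 1 → a ≠ b → CK q g a.val b.val := by
    intro a b ha0 ha1 hb0 hb1 hab
    exact hck _ _ (val_ge_two a ha0 ha1 hq2) (ZMod.val_lt a) (val_ge_two b hb0 hb1 hq2) (ZMod.val_lt b)
      (fun h => hab (ZMod.val_injective q h))
  have hz : ∀ a b : ZMod q, a ≠ 0 → a ≠ 1 → b ≠ 0 → b ≠ 1 → a ≠ b →
      (((g a.val b.val : ℕ) : ZMod q)).val = g a.val b.val := by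
    intro a b ha0 ha1 hb0 hb1 hab
    exact ZMod.val_natCast_of_lt (hc a b ha0 ha1 hb0 hb1 hab).1
  have hz0 : ∀ a b : ZMod q, a ≠ 0 → a ≠ 1 → b ≠ 0 → b ≠ 1 → a ≠ b →
      ((g a.val b.val : ℕ) : ZMod q) ≠ 0 := by
    intro a b ha0 ha1 hb0 hb1 hab h
    have h1 := hz a b ha0 ha1 hb0 hb1 hab
    have h2 := (hc a b ha0 ha1 hb0 hb1 hab).2.1
    rw [h, ZMod.val_zero] at h1
    omega
  have hz1 : ∀ a b : ZMod q, a ≠ 0 → a ≠ 1 → b ≠ 0 → b ≠ 1 → a ≠ b →
      ((g a.val b.val : ℕ) : ZMod q) ≠ 1 := by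
    intro a b ha0 ha1 hb0 hb1 hab h
    have h1 := hz a b ha0 ha1 hb0 hb1 hab
    have h2 := (hc a b ha0 ha1 hb0 hb1 hab).2.1
    rw [h, ZMod.val_one] at h1
    omega
  constructor
  · intro a b ha0 ha1 hb0 hb1 hab
    have h := hc a b ha0 ha1 hb0 hb1 hab
    have hv := hz a b ha0 ha1 hb0 hb1 hab
    refine ⟨hz0 a b ha0 ha1 hb0 hb1 hab, hz1 a b ha0 ha1 hb0 hb1 hab, fun h' => ?_, fun h' => ?_⟩
    · have : ((g a.val b.val : ℕ) : ZMod q).val = a.val := by
        rw [h']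
      exact h.2.2.1 (by rw [← hv, this])
    · have : ((g a.val b.val : ℕ) : ZMod q).val = b.val := by
        rw [h']
      exact h.2.2.2.1 (by rw [← hv, this])
  · intro a b ha0 ha1 hb0 hb1 hab
    have h := hc a b ha0 ha1 hb0 hb1 hab
    rw [h.2.2.2.2.1]
  · intro a b ha0 ha1 hb0 hb1 hab
    have h := hc a b ha0 ha1 hb0 hb1 hab
    have hv := hz a b ha0 ha1 hb0 hb1 hab
    rw [hv, h.2.2.2.2.2.1, ZMod.natCast_val, ZMod.cast_id', id_eq]
  · intro a b ha0 ha1 hb0 hb1 hab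
    have h := hc a b ha0 ha1 hb0 hb1 hab
    have hv := hz a b ha0 ha1 hb0 hb1 hab
    rw [val_rho a ha1 hq2, val_rho b hb1 hq2, h.2.2.2.2.2.2.1]
    have h2 := val_rho _ (hz1 a b ha0 ha1 hb0 hb1 hab) hq2
    rw [hv] at h2
    rw [← h2, ZMod.natCast_val, ZMod.cast_id', id_eq]
  · intro a b ha0 ha1 hb0 hb1 hab hsq
    have h := hc a b ha0 ha1 hb0 hb1 hab
    have hv := hz a b ha0 ha1 hb0 hb1 hab
    rw [isSquare_iff_nat a ha0 hq2] at hsq
    have h3 := h.2.2.2.2.2.2.2.1 hsq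
    rw [ZMod.val_mul, val_inv' a ha0 hq2, h3, ZMod.natCast_mod, Nat.cast_mul, ← val_inv' a ha0 hq2,
      ZMod.natCast_val a⁻¹, ZMod.cast_id', id_eq]
  · intro a b ha0 ha1 hb0 hb1 hab hsq
    have h := hc a b ha0 ha1 hb0 hb1 hab
    have hv := hz a b ha0 ha1 hb0 hb1 hab
    rw [isSquare_iff_nat a ha0 hq2] at hsq
    have h3 := h.2.2.2.2.2.2.2.2 hsq
    have h4 := val_inv' _ (hz0 a b ha0 ha1 hb0 hb1 hab) hq2
    rw [hv] at h4
    rw [ZMod.val_mul, val_inv' b hb0 hq2, h3, ZMod.natCast_mod, Nat.cast_mul, ← h4,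
      ZMod.natCast_val a, ZMod.cast_id', id_eq, ZMod.natCast_val, ZMod.cast_id', id_eq]

theorem not_square_neg_one (hq : q % 4 = 3) : ¬ IsSquare (-1 : ZMod q) := by
  rw [ZMod.exists_sq_eq_neg_one_iff]
  omega

theorem square_or_neg (hq : q % 4 = 3) (a : ZMod q) (ha : a ≠ 0) : IsSquare a ∨ IsSquare (-a) := by
  by_cases h : IsSquare a
  · exact Or.inl h
  · right
    have hchar : ringChar (ZMod q) ≠ 2 := by
      rw [ZMod.ringChar_zmod_n]
      intro h'; rw [h'] at hq; omega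
    have h1 : quadraticChar (ZMod q) a = -1 := quadraticChar_neg_one_iff_not_isSquare.mpr h
    have h2 : quadraticChar (ZMod q) (-1) = -1 :=
      quadraticChar_neg_one_iff_not_isSquare.mpr (not_square_neg_one hq)
    have h3 : quadraticChar (ZMod q) (-a) = 1 := by
      have : (-a) = (-1) * a := by ring
      rw [this, map_mul, h1, h2]; norm_num
    exact (quadraticChar_one_iff_isSquare (neg_ne_zero.mpr ha)).mp h3

end

/-- `B` is a Steiner system on the finite type `P` with block size `k` and strength `r` -/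
def SteinerOn (P : Type*) [DecidableEq P] (k r : ℕ) (B : Finset (Finset P)) : Prop :=
  (∀ b ∈ B, b.card = k) ∧ ∀ T : Finset P, T.card = r → ∃! b, b ∈ B ∧ T ⊆ b

theorem steiner_transfer {P Q : Type*} [DecidableEq P] [DecidableEq Q] (e : P ≃ Q) (k r : ℕ)
    (h : ∃ B, SteinerOn P k r B) : ∃ B, SteinerOn Q k r B := by
  obtain ⟨B, hB1, hB2⟩ := h
  refine ⟨B.image (fun b => b.map e.toEmbedding), ?_, ?_⟩
  · intro b hb
    obtain ⟨c, hc, rfl⟩ := Finset.mem_image.mp hb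
    rw [Finset.card_map]
    exact hB1 c hc
  · intro T hT
    obtain ⟨b, ⟨hb1, hb2⟩, hb3⟩ := hB2 (T.map e.symm.toEmbedding) (by rw [Finset.card_map]; exact hT)
    have conv : ∀ c : Finset P, T.map e.symm.toEmbedding ⊆ c ↔ T ⊆ c.map e.toEmbedding := by
      intro c
      constructor
      · intro h x hx
        rw [Finset.mem_map]
        refine ⟨e.symm x, h (Finset.mem_map.mpr ⟨x, hx, rfl⟩), by simp⟩
      · intro h x hx
        obtain ⟨y, hy, rfl⟩ := Finset.mem_map.mp hx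
        obtain ⟨z, hz, hzy⟩ := Finset.mem_map.mp (h hy)
        have : e.symm y = z := by rw [← hzy]; simp
        simpa [this] using hz
    refine ⟨b.map e.toEmbedding, ⟨Finset.mem_image_of_mem _ hb1, (conv b).mp hb2⟩, ?_⟩
    rintro c ⟨hc1, hc2⟩
    obtain ⟨d, hd, rfl⟩ := Finset.mem_image.mp hc1
    rw [hb3 d ⟨hd, (conv d).mpr hc2⟩]

/-- the derived design at the point `none` -/
theorem steiner_derived {P : Type*} [DecidableEq P] (k r : ℕ)
    (h : ∃ B, SteinerOn (Option P) (k + 1) (r + 1) B) : ∃ B, SteinerOn P k r B := by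
  obtain ⟨B, hB1, hB2⟩ := h
  refine ⟨(B.filter (fun b => none ∈ b)).image (fun b => b.eraseNone), ?_, ?_⟩
  · intro b hb
    obtain ⟨c, hc, rfl⟩ := Finset.mem_image.mp hb
    rw [Finset.mem_filter] at hc
    have h1 := hB1 c hc.1
    have h2 := Finset.card_eraseNone_of_mem hc.2
    rw [h1] at h2
    simpa using h2
  · intro T hT
    obtain ⟨b, ⟨hb1, hb2⟩, hb3⟩ := hB2 (Finset.insertNone T) (by rw [Finset.card_insertNone, hT])
    have conv : ∀ c : Finset (Option P), none ∈ c → (Finset.insertNone T ⊆ c ↔ T ⊆ c.eraseNone) := by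
      intro c hc
      constructor
      · intro h x hx
        rw [Finset.mem_eraseNone]
        exact h (Finset.some_mem_insertNone.mpr hx)
      · intro h x hx
        cases x with
        | none => exact hc
        | some x =>
          have := h (Finset.some_mem_insertNone.mp hx)
          rwa [Finset.mem_eraseNone] at this
    have hn : none ∈ b := hb2 (Finset.none_mem_insertNone)
    refine ⟨b.eraseNone, ⟨Finset.mem_image_of_mem _ (Finset.mem_filter.mpr ⟨hb1, hn⟩),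
      (conv b hn).mp hb2⟩, ?_⟩
    rintro c ⟨hc1, hc2⟩
    obtain ⟨d, hd, rfl⟩ := Finset.mem_image.mp hc1
    rw [Finset.mem_filter] at hd
    rw [hb3 d ⟨hd.1, (conv d hd.2).mpr hc2⟩]

theorem steiner_of_check (q : ℕ) [Fact q.Prime] (hq : q % 4 = 3) (hq2 : 2 < q) (g : ℕ → ℕ → ℕ)
    (hck : ∀ x y, 2 ≤ x → x < q → 2 ≤ y → y < q → x ≠ y → CK q g x y) :
    (∃ B : Finset (Finset (Fin (q + 1))), (∀ b ∈ B, b.card = 6) ∧
      ∀ T : Finset (Fin (q + 1)), T.card = 5 → ∃! b, b ∈ B ∧ T ⊆ b) ∧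
    (∃ B : Finset (Finset (Fin q)), (∀ b ∈ B, b.card = 5) ∧
      ∀ T : Finset (Fin q), T.card = 4 → ∃! b, b ∈ B ∧ T ⊆ b) := by
  have h1 : ∃ B, SteinerOn (Option (ZMod q)) 6 5 B := by
    obtain ⟨B, hB⟩ := steiner_of_tab (not_square_neg_one hq) (square_or_neg hq) (tabOK_of_check hq2 g hck)
    exact ⟨B, hB⟩
  constructor
  · have hcard : Fintype.card (Option (ZMod q)) = q + 1 := by
      rw [Fintype.card_option, ZMod.card]
    exact steiner_transfer (Fintype.equivFinOfCardEq hcard) 6 5 h1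
  · have h2 := steiner_derived 5 4 h1
    exact steiner_transfer (Fintype.equivFinOfCardEq (ZMod.card q)) 5 4 h2

end Pool.Agent.S56
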